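import Pool.Agent.X150.EV.Final

/-! Points seeing little boundary in planar `ε`-visible spaces: the exceptional set need not be
small.

The obstacles are rectangles. Solid rows alternate with rows of bricks that are separated by narrow
gaps of width `w = α τ`, where `τ` is the thickness of the rows; consecutive rows are at distance one.
A point in the middle of a gap sees the two sides of the gap and, through its two ends, two short
pieces of the neighbouring rows, of total length at most `4 τ + 16 α`, but it sees an area of at least
`α / 4`. As the number of rows and bricks grows, `ε μ(F)` stays of order `α`, while the gaps occupy a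
fixed fraction of the free space. -/

set_option autoImplicit false

open Set MeasureTheory

namespace Pool.Agent.Results.MP_9521de_co.Main

open Pool.Agent.X150.EV

theorem result (lam rho : ℝ) (hl0 : 0 < lam) (hl1 : lam < 1) (hr0 : 0 < rho) (hr1 : rho < 1)
    (κ C : ℝ) (hκ : 0 < κ) (hC : 0 < C) :
    ∃ ε : ℝ, 0 < ε ∧ ε ≤ 1 ∧ ∃ (a b c d : ℝ) (ι : Type) (O : ι → Set ℂ),
      IsSpace lam rho a b c d O ∧ (∀ i, Convex ℝ (O i)) ∧ IsPathConnected (free a b c d O) ∧
      EpsVisible ε (free a b c d O) ∧
      C * √ε * area (free a b c d O) <
        area (exc κ ε (free a b c d O) (bdry a b c d O)) :=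
  main lam rho hl0 hl1 hr0 hr1 κ C hκ hC

end Pool.Agent.Results.MP_9521de_co.Main
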